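import Mathlib

set_option autoImplicit false

/-!
# Project TN: Toeplitz, Hankel and Fourier matrices are not rigid (quantitative)

Statements of the parts. Plan: (K) Kronecker products of arbitrary matrices of sizes at most `d`
are, after few changes, of rank at most `N ^ (1 - gam)` (landed, helper966). (DIA) A circulant on
`∏ ZMod (p i)` is `F * D * F⁻¹` with `F` a Kronecker product. (MUL) products. (SUB) submatrices.
(TOE) a Toeplitz matrix is a submatrix of such a circulant by the Chinese remainder theorem.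
(PRI) choice of the primes. (NUM) the final estimate. (REAL) from `ℂ` to `ℝ`.
-/

namespace Pool.Agent.W989.TN

open Matrix Finset

/-- `T` is the sum of a matrix with at most `ρ` nonzero entries in every row and in every column,
and of a matrix of rank at most `r`. -/
def Spr {K : Type*} [Field K] {m : Type*} [Fintype m] (ρ r : ℝ) (T : Matrix m m K) : Prop :=
  ∃ S : Matrix m m K, ((T - S).rank : ℝ) ≤ r ∧ (∀ x, (({y | S x y ≠ 0} : Set m).ncard : ℝ) ≤ ρ) ∧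
    ∀ y, (({x | S x y ≠ 0} : Set m).ncard : ℝ) ≤ ρ

/-- The exponent saved in the rank. -/
noncomputable def gam (δ ℓ : ℝ) : ℝ := δ ^ 2 / (2 ^ 20 * Real.logb 2 (4 / δ) ^ 2 * ℓ ^ 3)

/-- The Toeplitz matrix of `f`. -/
def toeplitz {K : Type*} (f : ℤ → K) (N : ℕ) : Matrix (Fin N) (Fin N) K :=
  fun i j => f ((i : ℕ) - (j : ℕ) : ℤ)

/-- (MUL) products. -/
def MUL : Prop := ∀ (m : Type) [Fintype m] (ρ ρ' r r' : ℝ) (T T' : Matrix m m ℂ),
  0 ≤ ρ → 0 ≤ ρ' → Spr ρ r T → Spr ρ' r' T' → Spr (ρ * ρ') (r + r') (T * T')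

/-- (SUB) submatrices. -/
def SUB : Prop := ∀ (m X : Type) [Fintype m] [Fintype X] (ρ r : ℝ) (T : Matrix m m ℂ)
  (φ ψ : X → m), Function.Injective φ → Function.Injective ψ → Spr ρ r T →
  Spr ρ r (T.submatrix φ ψ)

/-- (SCA) multiplication of the rows and of the columns by numbers. -/
def SCA : Prop := ∀ (m : Type) [Fintype m] (ρ r : ℝ) (T : Matrix m m ℂ) (a b : m → ℂ),
  Spr ρ r T → Spr ρ r (Matrix.of fun x y => a x * T x y * b y)

/-- (REAL) a real matrix: the matrix `S` can be taken real, at the cost of a factor `2`. -/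
def REAL : Prop := ∀ (m : Type) [Fintype m] (ρ r : ℝ) (T : Matrix m m ℝ),
  Spr ρ r (T.map (fun x : ℝ => (x : ℂ))) → Spr ρ (2 * r) T

/-- (DIA) a circulant matrix on `∏ ZMod (p i)` is `F * D * F'` where `F` and `F'` are
Kronecker products. -/
def DIA : Prop := ∀ (ι : Type) [Fintype ι] [DecidableEq ι] (p : ι → ℕ) [∀ i, NeZero (p i)]
  (f : (∀ i, ZMod (p i)) → ℂ), ∃ (A B : ∀ i, Matrix (ZMod (p i)) (ZMod (p i)) ℂ)
    (D : (∀ i, ZMod (p i)) → ℂ), ∀ x y : (∀ i, ZMod (p i)),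
      f (x - y) = ∑ a, (∏ i, A i (x i) (a i)) * D a * ∏ i, B i (a i) (y i)

/-- (TOE) a Toeplitz matrix of size `N` with `2 * N ≤ ∏ p i`, `p i` pairwise coprime, is a
submatrix of a circulant on `∏ ZMod (p i)`. -/
def TOE : Prop := ∀ (ι : Type) [Fintype ι] [DecidableEq ι] (p : ι → ℕ),
  Pairwise (Function.onFun Nat.Coprime p) → ∀ (N : ℕ), 2 * N ≤ ∏ i, p i → ∀ f : ℤ → ℂ,
  ∃ (F : (∀ i, ZMod (p i)) → ℂ) (φ : Fin N → ∀ i, ZMod (p i)), Function.Injective φ ∧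
    ∀ i j : Fin N, F (φ i - φ j) = toeplitz f N i j

/-- (PRI) the primes: `primorial z` is the product of the primes at most `z`. -/
def PRI : Prop := ∃ N₀ : ℕ, ∀ N : ℕ, N₀ ≤ N → ∃ z : ℕ, 2 ≤ z ∧ 2 * N ≤ primorial z ∧
  primorial z ≤ 2 * N * z ∧ z ≤ 2 * Nat.clog 2 (2 * N)

/-- (NUM) the final estimate. -/
def NUM : Prop := ∀ δ : ℝ, 0 < δ → δ ≤ 1 → ∃ c : ℝ, 0 < c ∧ ∃ N₀ : ℕ, ∀ N z P : ℕ, N₀ ≤ N →
  2 ≤ z → z ≤ 2 * Nat.clog 2 (2 * N) → 2 * N ≤ P → P ≤ 2 * N * z →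
  (P : ℝ) ^ (δ / 4) * (P : ℝ) ^ (δ / 4) ≤ (N : ℝ) ^ δ ∧
  256 * Real.logb 2 z * (P : ℝ) ^ (1 - gam (δ / 4) (Real.logb 2 z)) ≤
    (N : ℝ) ^ (1 - c / Real.log (Real.log N) ^ 3)

end Pool.Agent.W989.TN
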