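import Pool.Agent.W989.TN.Main2

set_option autoImplicit false

/-!
# Project TN: the final statement from the parts
-/

namespace Pool.Agent.W989.TN

open Matrix Finset

/-- The final statement. -/
def FINAL : Prop :=
    (∀ (ι : Type) [Fintype ι] [DecidableEq ι] (n : ι → ℕ) [∀ i, NeZero (n i)] (d N : ℕ) (δ : ℝ),
      2 ≤ d → (∀ i, n i ≤ d) → N = ∏ i, n i → 0 < δ → δ ≤ 1 →
      (∀ f : (∀ i, ZMod (n i)) → ℂ,
        Spr ((N : ℝ) ^ δ) (128 * Real.logb 2 d * (N : ℝ) ^ (1 - (δ / 2) ^ 2 /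
            (2 ^ 20 * Real.logb 2 (8 / δ) ^ 2 * Real.logb 2 d ^ 3)))
          (Matrix.of fun x y : (∀ i, ZMod (n i)) => f (x - y))) ∧
      (∀ f : (∀ i, ZMod (n i)) → ℝ,
        Spr ((N : ℝ) ^ δ) (256 * Real.logb 2 d * (N : ℝ) ^ (1 - (δ / 2) ^ 2 /
            (2 ^ 20 * Real.logb 2 (8 / δ) ^ 2 * Real.logb 2 d ^ 3)))
          (Matrix.of fun x y : (∀ i, ZMod (n i)) => f (x - y)))) ∧
    (∀ δ : ℝ, 0 < δ → δ ≤ 1 → ∃ c : ℝ, 0 < c ∧ ∃ N₀ : ℕ, ∀ N : ℕ, N₀ ≤ N →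
      (∀ f : ℤ → ℂ, Spr ((N : ℝ) ^ δ) ((N : ℝ) ^ (1 - c / Real.log (Real.log N) ^ 3))
        (toeplitz f N)) ∧
      (∀ f : ℤ → ℝ, Spr ((N : ℝ) ^ δ) ((N : ℝ) ^ (1 - c / Real.log (Real.log N) ^ 3))
        (toeplitz f N)) ∧
      (∀ f : ℕ → ℂ, Spr ((N : ℝ) ^ δ) ((N : ℝ) ^ (1 - c / Real.log (Real.log N) ^ 3))
        (hankel f N)) ∧
      (∀ f : ℕ → ℝ, Spr ((N : ℝ) ^ δ) ((N : ℝ) ^ (1 - c / Real.log (Real.log N) ^ 3))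
        (hankel f N)) ∧
      (∀ θ : ℂ, θ ≠ 0 → Spr ((N : ℝ) ^ δ) ((N : ℝ) ^ (1 - c / Real.log (Real.log N) ^ 3))
        (Matrix.of fun i j : Fin N => θ ^ ((i : ℕ) * (j : ℕ))))) ∧
    (∀ δ : ℝ, 0 < δ → δ ≤ 1 → ∃ c : ℝ, 0 < c ∧ ∃ N₀ : ℕ, ∀ N : ℕ, N₀ ≤ N →
      (∀ (α : ℕ) (M : Matrix (Fin N) (Fin N) ℂ), (disp M).rank ≤ α →
        Spr (α * (N : ℝ) ^ δ) (α * (N : ℝ) ^ (1 - c / Real.log (Real.log N) ^ 3)) M) ∧
      (∀ (α : ℕ) (M : Matrix (Fin N) (Fin N) ℝ), (disp M).rank ≤ α →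
        Spr (α * (N : ℝ) ^ δ) (α * (N : ℝ) ^ (1 - c / Real.log (Real.log N) ^ 3)) M)) ∧
    (∀ ε δ : ℝ, 0 < ε → 0 < δ → ∃ c : ℝ, 0 < c ∧ ∃ N₀ : ℕ, ∀ N : ℕ, N₀ ≤ N →
      (∀ M : Matrix (Fin N) (Fin N) ℂ,
        ((disp M).rank : ℝ) ≤ (N : ℝ) ^ (c / Real.log (Real.log N) ^ 3) →
        ∃ R S : Matrix (Fin N) (Fin N) ℂ, M = R + S ∧ (R.rank : ℝ) ≤ ε * N ∧
          ({p : Fin N × Fin N | S p.1 p.2 ≠ 0}.ncard : ℝ) ≤ (N : ℝ) ^ (1 + δ)) ∧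
      (∀ M : Matrix (Fin N) (Fin N) ℝ,
        ((disp M).rank : ℝ) ≤ (N : ℝ) ^ (c / Real.log (Real.log N) ^ 3) →
        ∃ R S : Matrix (Fin N) (Fin N) ℝ, M = R + S ∧ (R.rank : ℝ) ≤ ε * N ∧
          ({p : Fin N × Fin N | S p.1 p.2 ≠ 0}.ncard : ℝ) ≤ (N : ℝ) ^ (1 + δ)))

theorem final (hDIA : DIA) (hMUL : MUL) (hSUB : SUB) (hTOE : TOE) (hPRI : PRI)
    (hNUM : NUM) (hREAL : REAL) (hSCA : SCA) (hDSP : DSP) (hDSPR : DSPR) (hNUM2 : NUM2)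
    (hNUM3 : NUM3) : FINAL := by
  refine ⟨?_, ?_, ?_, ?_⟩
  · intro ι _ _ n _ d N δ hd hn hN hδ0 hδ1
    have hN1 : 1 ≤ N := by
      rw [hN]
      exact Finset.prod_pos fun i _ => Nat.pos_of_ne_zero (NeZero.ne _)
    have hN0 : (0 : ℝ) < N := by exact_mod_cast hN1
    have key : ∀ f : (∀ i, ZMod (n i)) → ℂ,
        Spr ((N : ℝ) ^ δ) (128 * Real.logb 2 d * (N : ℝ) ^ (1 - (δ / 2) ^ 2 /
            (2 ^ 20 * Real.logb 2 (8 / δ) ^ 2 * Real.logb 2 d ^ 3)))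
          (Matrix.of fun x y : (∀ i, ZMod (n i)) => f (x - y)) := by
      intro f
      have h := circ hDIA hMUL n d hd hn (δ / 2) (by linarith) (by linarith) f
      rw [← hN] at h
      refine h.mono (le_of_eq ?_) (le_of_eq ?_)
      · rw [← Real.rpow_add hN0]
        congr 1
        ring
      · have : (4 : ℝ) / (δ / 2) = 8 / δ := by
          field_simp
          norm_num
        rw [gam, this]
    refine ⟨key, fun f => ?_⟩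
    refine (hREAL _ _ _ _ (key fun x => (f x : ℂ))).mono le_rfl (le_of_eq ?_)
    ring
  · exact fun δ h0 h1 => main hDIA hMUL hSUB hTOE hPRI hNUM hREAL hSCA δ h0 h1
  · exact fun δ h0 h1 => displacement hDIA hMUL hSUB hTOE hPRI hNUM hREAL hSCA hDSP hDSPR
      hNUM2 δ h0 h1
  · exact fun ε δ h0 h1 => notRigid hDIA hMUL hSUB hTOE hPRI hNUM hREAL hSCA hDSP hDSPR
      hNUM2 hNUM3 ε δ h0 h1

end Pool.Agent.W989.TN
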