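import Pool.Agent.W966.KronMain
import Pool.Agent.W989.TN.Stm

set_option autoImplicit false

/-!
# Project TN: assembly
-/

namespace Pool.Agent.W989.TN

open Matrix Finset

/-- The Hankel matrix of `f`. -/
def hankel {K : Type*} (f : ℕ → K) (N : ℕ) : Matrix (Fin N) (Fin N) K :=
  fun i j => f ((i : ℕ) + (j : ℕ))

theorem spr_iff {K : Type*} [Field K] {m : Type*} [Fintype m] {ρ r : ℝ} {T : Matrix m m K} :
    W966.Kron.Spr ρ r T ↔ Spr ρ r T := Iff.rfl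

theorem gam_eq (δ ℓ : ℝ) : W966.Kron.gam δ ℓ = gam δ ℓ := rfl

theorem Spr.mono {K : Type*} [Field K] {m : Type*} [Fintype m] {ρ r ρ' r' : ℝ}
    {T : Matrix m m K} (h : Spr ρ r T) (h1 : ρ ≤ ρ') (h2 : r ≤ r') : Spr ρ' r' T := by
  obtain ⟨S, a, b, c⟩ := h
  exact ⟨S, a.trans h2, fun x => (b x).trans h1, fun x => (c x).trans h1⟩

theorem Spr.reindex {K : Type*} [Field K] {m m' : Type*} [Fintype m] [Fintype m'] {ρ r : ℝ}
    {T : Matrix m m K} (e e' : m' ≃ m) (h : Spr ρ r (T.submatrix e e')) : Spr ρ r T :=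
  W966.Kron.Spr.reindex e e' h

/-- `ZMod m` and `Fin m`. -/
noncomputable def zf (m : ℕ) [NeZero m] : Fin m ≃ ZMod m :=
  Fintype.equivOfCardEq (by rw [Fintype.card_fin, ZMod.card])

/-- The Kronecker theorem for matrices indexed by `ZMod (p i)`. -/
theorem kron_zmod {ι : Type} [Fintype ι] [DecidableEq ι] (p : ι → ℕ) [∀ i, NeZero (p i)]
    (M : ∀ i, Matrix (ZMod (p i)) (ZMod (p i)) ℂ) (d : ℕ) (hd : 2 ≤ d)
    (hn : ∀ i, p i ≤ d) (δ : ℝ) (hδ0 : 0 < δ) (hδ1 : δ ≤ 1) :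
    Spr (((∏ i, p i : ℕ) : ℝ) ^ δ) (64 * Real.logb 2 d *
      ((∏ i, p i : ℕ) : ℝ) ^ (1 - gam δ (Real.logb 2 d)))
      (Matrix.of fun x y : (∀ i, ZMod (p i)) => ∏ i, M i (x i) (y i)) := by
  have h := W966.Kron.kron_main p (fun i => (M i).submatrix (zf (p i)) (zf (p i))) d hd
    (fun i => ⟨Nat.pos_of_ne_zero (NeZero.ne _), hn i⟩) δ hδ0 hδ1
  exact Spr.reindex (Equiv.piCongrRight fun i => zf (p i))
    (Equiv.piCongrRight fun i => zf (p i)) h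

theorem spr_diagonal {m : Type*} [Fintype m] [DecidableEq m] (D : m → ℂ) :
    Spr 1 0 (Matrix.diagonal D) := by
  refine ⟨Matrix.diagonal D, by simp, fun x => ?_, fun y => ?_⟩
  · have h : ({y | Matrix.diagonal D x y ≠ 0} : Set m) ⊆ {x} := by
      intro y hy
      by_contra hne
      exact hy (Matrix.diagonal_apply_ne D (fun h => hne (by simp [h])))
    have := Set.ncard_le_ncard h (Set.finite_singleton x)
    rw [Set.ncard_singleton] at this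
    exact_mod_cast this
  · have h : ({x | Matrix.diagonal D x y ≠ 0} : Set m) ⊆ {y} := by
      intro x hx
      by_contra hne
      exact hx (Matrix.diagonal_apply_ne D (fun h => hne (by simp [h])))
    have := Set.ncard_le_ncard h (Set.finite_singleton y)
    rw [Set.ncard_singleton] at this
    exact_mod_cast this

/-- Circulant matrices on a product of small cyclic groups. -/
theorem circ (hDIA : DIA) (hMUL : MUL) {ι : Type} [Fintype ι] [DecidableEq ι] (p : ι → ℕ)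
    [∀ i, NeZero (p i)] (d : ℕ) (hd : 2 ≤ d) (hn : ∀ i, p i ≤ d) (δ : ℝ) (hδ0 : 0 < δ)
    (hδ1 : δ ≤ 1) (f : (∀ i, ZMod (p i)) → ℂ) :
    Spr (((∏ i, p i : ℕ) : ℝ) ^ δ * ((∏ i, p i : ℕ) : ℝ) ^ δ) (128 * Real.logb 2 d *
      ((∏ i, p i : ℕ) : ℝ) ^ (1 - gam δ (Real.logb 2 d)))
      (Matrix.of fun x y : (∀ i, ZMod (p i)) => f (x - y)) := by
  obtain ⟨A, B, D, h⟩ := hDIA ι p f
  have hA := kron_zmod p A d hd hn δ hδ0 hδ1
  have hB := kron_zmod p B d hd hn δ hδ0 hδ1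
  have hρ : (0 : ℝ) ≤ ((∏ i, p i : ℕ) : ℝ) ^ δ := by positivity
  have h1 := hMUL _ _ _ _ _ _ _ hρ zero_le_one hA (spr_diagonal D)
  have h2 := hMUL _ _ _ _ _ _ _ (mul_nonneg hρ zero_le_one) hρ h1 hB
  have h3 : (Matrix.of fun x y : (∀ i, ZMod (p i)) => f (x - y)) =
      (Matrix.of fun x y : (∀ i, ZMod (p i)) => ∏ i, A i (x i) (y i)) *
        Matrix.diagonal D * (Matrix.of fun x y : (∀ i, ZMod (p i)) => ∏ i, B i (x i) (y i)) := by
    ext x y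
    rw [Matrix.of_apply, h x y, Matrix.mul_apply]
    refine Finset.sum_congr rfl fun a _ => ?_
    rw [Matrix.mul_diagonal, Matrix.of_apply, Matrix.of_apply]
  rw [h3]
  refine h2.mono ?_ ?_
  · rw [mul_one]
  · apply le_of_eq
    ring

theorem toeplitz_of_primes (hDIA : DIA) (hMUL : MUL) (hSUB : SUB) (hTOE : TOE) (N z : ℕ)
    (hz : 2 ≤ z) (s : Finset ℕ) (hs : ∀ p ∈ s, p.Prime ∧ p ≤ z) (P : ℕ) (hP : ∏ p ∈ s, p = P)
    (hN : 2 * N ≤ P) (δ : ℝ) (hδ0 : 0 < δ) (hδ1 : δ ≤ 1) (f : ℤ → ℂ) :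
    Spr ((P : ℝ) ^ δ * (P : ℝ) ^ δ) (128 * Real.logb 2 z *
      (P : ℝ) ^ (1 - gam δ (Real.logb 2 z))) (toeplitz f N) := by
  classical
  have hp : ∀ i : s, (i : ℕ).Prime := fun i => (hs _ i.2).1
  have hle : ∀ i : s, (i : ℕ) ≤ z := fun i => (hs _ i.2).2
  have hne : ∀ i : s, NeZero (i : ℕ) := fun i => ⟨(hp i).ne_zero⟩
  have hcop : Pairwise (Function.onFun Nat.Coprime (fun i : s => (i : ℕ))) := by
    intro i j hij
    exact (Nat.coprime_primes (hp i) (hp j)).2 fun h => hij (Subtype.ext h)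
  have hprod : ∏ i : s, (i : ℕ) = P := by
    rw [← hP, Finset.prod_coe_sort s (fun p : ℕ => p)]
  obtain ⟨F, φ, hφ, hF⟩ := hTOE s (fun i : s => (i : ℕ)) hcop N (by rw [hprod]; exact hN) f
  have h1 := circ hDIA hMUL (fun i : s => (i : ℕ)) z hz hle δ hδ0 hδ1 F
  rw [hprod] at h1
  have h2 := hSUB _ (Fin N) _ _ _ φ φ hφ hφ h1
  have h3 : (Matrix.of fun x y : (∀ i : s, ZMod (i : ℕ)) => F (x - y)).submatrix φ φ =
      toeplitz f N := by
    ext i j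
    exact hF i j
  rw [h3] at h2
  exact h2

/-- The final bound for one primorial. -/
theorem toeplitz_of_primorial (hDIA : DIA) (hMUL : MUL) (hSUB : SUB) (hTOE : TOE) (N z : ℕ)
    (hz : 2 ≤ z) (hN : 2 * N ≤ primorial z) (δ : ℝ) (hδ0 : 0 < δ) (hδ1 : δ ≤ 1) (f : ℤ → ℂ) :
    Spr ((primorial z : ℝ) ^ δ * (primorial z : ℝ) ^ δ) (128 * Real.logb 2 z *
      (primorial z : ℝ) ^ (1 - gam δ (Real.logb 2 z))) (toeplitz f N) :=
  toeplitz_of_primes hDIA hMUL hSUB hTOE N z hz ((Finset.range (z + 1)).filter Nat.Prime)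
    (fun p hp => by
      rw [Finset.mem_filter, Finset.mem_range] at hp
      exact ⟨hp.2, by omega⟩) _ rfl hN δ hδ0 hδ1 f

/-- Toeplitz matrices over `ℂ` and `ℝ`, Hankel matrices, and matrices `θ ^ (i j)`. -/
theorem main (hDIA : DIA) (hMUL : MUL) (hSUB : SUB) (hTOE : TOE) (hPRI : PRI) (hNUM : NUM)
    (hREAL : REAL) (hSCA : SCA) (δ : ℝ) (hδ0 : 0 < δ) (hδ1 : δ ≤ 1) :
    ∃ c : ℝ, 0 < c ∧ ∃ N₀ : ℕ, ∀ N : ℕ, N₀ ≤ N →
      (∀ f : ℤ → ℂ, Spr ((N : ℝ) ^ δ) ((N : ℝ) ^ (1 - c / Real.log (Real.log N) ^ 3))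
        (toeplitz f N)) ∧
      (∀ f : ℤ → ℝ, Spr ((N : ℝ) ^ δ) ((N : ℝ) ^ (1 - c / Real.log (Real.log N) ^ 3))
        (toeplitz f N)) ∧
      (∀ f : ℕ → ℂ, Spr ((N : ℝ) ^ δ) ((N : ℝ) ^ (1 - c / Real.log (Real.log N) ^ 3))
        (hankel f N)) ∧
      (∀ f : ℕ → ℝ, Spr ((N : ℝ) ^ δ) ((N : ℝ) ^ (1 - c / Real.log (Real.log N) ^ 3))
        (hankel f N)) ∧
      (∀ θ : ℂ, θ ≠ 0 → Spr ((N : ℝ) ^ δ) ((N : ℝ) ^ (1 - c / Real.log (Real.log N) ^ 3))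
        (Matrix.of fun i j : Fin N => θ ^ ((i : ℕ) * (j : ℕ)))) := by
  obtain ⟨N₁, h1⟩ := hPRI
  obtain ⟨c, hc, N₂, h2⟩ := hNUM δ hδ0 hδ1
  refine ⟨c, hc, max N₁ N₂, ?_⟩
  intro N hN
  obtain ⟨z, hz, hz1, hz2, hz3⟩ := h1 N ((le_max_left _ _).trans hN)
  obtain ⟨h3, h4⟩ := h2 N z (primorial z) ((le_max_right _ _).trans hN) hz hz3 hz1 hz2
  have hlz : 0 ≤ Real.logb 2 z := Real.logb_nonneg (by norm_num) (by exact_mod_cast (by omega : 1 ≤ z))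
  set r : ℝ := 128 * Real.logb 2 z *
      (primorial z : ℝ) ^ (1 - gam (δ / 4) (Real.logb 2 z)) with hr
  have hr0 : 0 ≤ r := by positivity
  have hr2 : 2 * r ≤ (N : ℝ) ^ (1 - c / Real.log (Real.log N) ^ 3) := by
    refine le_trans (le_of_eq ?_) h4
    rw [hr]
    ring
  have hr1 : r ≤ (N : ℝ) ^ (1 - c / Real.log (Real.log N) ^ 3) := by linarith
  have hT : ∀ f : ℤ → ℂ, Spr ((N : ℝ) ^ δ) r (toeplitz f N) := fun f =>
    (toeplitz_of_primorial hDIA hMUL hSUB hTOE N z hz hz1 (δ / 4) (by linarith) (by linarith)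
      f).mono h3 le_rfl
  have hTR : ∀ f : ℤ → ℝ, Spr ((N : ℝ) ^ δ) (2 * r) (toeplitz f N) := fun f =>
    hREAL _ _ _ _ (hT fun k => (f k : ℂ))
  -- Hankel matrices
  have hH : ∀ (K : Type) [Field K] (ρ s : ℝ) (f : ℕ → K),
      (∀ g : ℤ → K, Spr ρ s (toeplitz g N)) → Spr ρ s (hankel f N) := by
    intro K _ ρ s f hg
    refine Spr.reindex (Equiv.refl _) Fin.revPerm ?_
    have h5 : (hankel f N).submatrix (Equiv.refl _) Fin.revPerm =
        toeplitz (fun k : ℤ => f (k + (N - 1 : ℤ)).toNat) N := by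
      ext i j
      simp only [Matrix.submatrix_apply, hankel, toeplitz, Equiv.refl_apply, Fin.revPerm_apply,
        Fin.val_rev]
      congr 1
      have := i.2
      have := j.2
      omega
    rw [h5]
    exact hg _
  refine ⟨fun f => (hT f).mono le_rfl hr1, fun f => (hTR f).mono le_rfl hr2,
    fun f => (hH ℂ _ _ f hT).mono le_rfl hr1, fun f => (hH ℝ _ _ f hTR).mono le_rfl hr2, ?_⟩
  intro θ h0
  obtain ⟨η, hη⟩ := IsAlgClosed.exists_pow_nat_eq θ (n := 2) (by norm_num)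
  have hη0 : η ≠ 0 := by
    rintro rfl
    exact h0 (by rw [← hη]; norm_num)
  have h6 := hSCA _ _ _ _ (fun i : Fin N => (η ^ ((i : ℕ) * (i : ℕ)))⁻¹)
    (fun i : Fin N => (η ^ ((i : ℕ) * (i : ℕ)))⁻¹) (hH ℂ _ _ (fun k => η ^ (k * k)) hT)
  have h7 : (Matrix.of fun i j : Fin N => θ ^ ((i : ℕ) * (j : ℕ))) =
      (Matrix.of fun i j : Fin N => (η ^ ((i : ℕ) * (i : ℕ)))⁻¹ *
        hankel (fun k => η ^ (k * k)) N i j * (η ^ ((j : ℕ) * (j : ℕ)))⁻¹) := by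
    ext i j
    simp only [Matrix.of_apply, hankel]
    rw [← hη]
    have e1 : η ^ ((i : ℕ) * (i : ℕ)) ≠ 0 := pow_ne_zero _ hη0
    have e2 : η ^ ((j : ℕ) * (j : ℕ)) ≠ 0 := pow_ne_zero _ hη0
    have e3 : η ^ (((i : ℕ) + (j : ℕ)) * ((i : ℕ) + (j : ℕ))) =
        η ^ ((i : ℕ) * (i : ℕ)) * (η ^ 2) ^ ((i : ℕ) * (j : ℕ)) * η ^ ((j : ℕ) * (j : ℕ)) := by
      rw [← pow_mul, ← pow_add, ← pow_add]
      congr 1
      ring
    rw [e3]
    field_simp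
  rw [h7]
  exact h6.mono le_rfl hr1

end Pool.Agent.W989.TN
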