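import Pool.Agent.W989.TN.Main

set_option autoImplicit false

/-!
# Project TN: matrices of small displacement rank
-/

namespace Pool.Agent.W989.TN

open Matrix Finset

/-- The displacement of `M`: the entry at `(i, j)` minus the entry at `(i - 1, j - 1)`, where
entries outside the matrix count as `0`. -/
def disp {K : Type} [Field K] {N : ℕ} (M : Matrix (Fin N) (Fin N) K) : Matrix (Fin N) (Fin N) K :=
  fun i j => M i j - if 0 < (i : ℕ) ∧ 0 < (j : ℕ) then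
    M ⟨(i : ℕ) - 1, by omega⟩ ⟨(j : ℕ) - 1, by omega⟩ else 0

/-- (DSP) matrices of displacement rank `α` are sums of `α` products of two Toeplitz matrices. -/
def DSP : Prop := ∀ (N α : ℕ) (M : Matrix (Fin N) (Fin N) ℂ), (disp M).rank ≤ α →
    ∃ f g : Fin α → ℤ → ℂ, M = ∑ k, toeplitz (f k) N * toeplitz (g k) N

/-- (DSPR) from `ℝ` to `ℂ`. -/
def DSPR : Prop := ∀ (N : ℕ) (M : Matrix (Fin N) (Fin N) ℝ),
    (disp (M.map (fun x : ℝ => (x : ℂ)))).rank ≤ (disp M).rank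

/-- (NUM2) -/
def NUM2 : Prop := ∀ (c K : ℝ), 0 < c → ∃ N₀ : ℕ, ∀ N : ℕ, N₀ ≤ N →
    K * (N : ℝ) ^ (1 - c / Real.log (Real.log N) ^ 3) ≤
      (N : ℝ) ^ (1 - c / 2 / Real.log (Real.log N) ^ 3)

/-- (NUM3) -/
def NUM3 : Prop := ∀ (c δ : ℝ), 0 < c → 0 < δ → ∃ N₀ : ℕ, ∀ N : ℕ, N₀ ≤ N →
    (N : ℝ) ^ (c / Real.log (Real.log N) ^ 3) ≤ (N : ℝ) ^ δ

theorem Spr.add {K : Type*} [Field K] {m : Type*} [Fintype m] {ρ r ρ' r' : ℝ}
    {T T' : Matrix m m K} (h : Spr ρ r T) (h' : Spr ρ' r' T') : Spr (ρ + ρ') (r + r') (T + T') := by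
  classical
  obtain ⟨S, a, b, c⟩ := h
  obtain ⟨S', a', b', c'⟩ := h'
  refine ⟨S + S', ?_, fun x => ?_, fun y => ?_⟩
  · have h1 : T + T' - (S + S') = (T - S) + (T' - S') := by abel
    rw [h1]
    have h2 := W966.Kron.rank_add_le' (T - S) (T' - S')
    have h3 : (((T - S) + (T' - S')).rank : ℝ) ≤ ((T - S).rank : ℝ) + (T' - S').rank := by
      exact_mod_cast h2
    linarith
  · have h1 : ({y | (S + S') x y ≠ 0} : Set m) ⊆ {y | S x y ≠ 0} ∪ {y | S' x y ≠ 0} := by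
      intro y hy
      by_contra hne
      simp only [Set.mem_union, Set.mem_ofPred_eq, not_or, not_not] at hne
      exact hy (by rw [Matrix.add_apply, hne.1, hne.2, add_zero])
    have h2 := (Set.ncard_le_ncard h1 (Set.toFinite _)).trans (Set.ncard_union_le _ _)
    have h3 : ((({y | (S + S') x y ≠ 0} : Set m).ncard : ℕ) : ℝ) ≤
        (({y | S x y ≠ 0} : Set m).ncard : ℝ) + (({y | S' x y ≠ 0} : Set m).ncard : ℝ) := by
      exact_mod_cast h2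
    linarith [b x, b' x]
  · have h1 : ({x | (S + S') x y ≠ 0} : Set m) ⊆ {x | S x y ≠ 0} ∪ {x | S' x y ≠ 0} := by
      intro x hx
      by_contra hne
      simp only [Set.mem_union, Set.mem_ofPred_eq, not_or, not_not] at hne
      exact hx (by rw [Matrix.add_apply, hne.1, hne.2, add_zero])
    have h2 := (Set.ncard_le_ncard h1 (Set.toFinite _)).trans (Set.ncard_union_le _ _)
    have h3 : ((({x | (S + S') x y ≠ 0} : Set m).ncard : ℕ) : ℝ) ≤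
        (({x | S x y ≠ 0} : Set m).ncard : ℝ) + (({x | S' x y ≠ 0} : Set m).ncard : ℝ) := by
      exact_mod_cast h2
    linarith [c y, c' y]

theorem Spr.sum {K : Type*} [Field K] {m : Type*} [Fintype m] {ρ r : ℝ} :
    ∀ (α : ℕ) (T : Fin α → Matrix m m K), (∀ k, Spr ρ r (T k)) → Spr (α * ρ) (α * r) (∑ k, T k)
  | 0, T, _ => ⟨0, by simp, by simp, by simp⟩
  | α + 1, T, h => by
    rw [Fin.sum_univ_castSucc]
    have h1 := (Spr.sum α (fun k => T k.castSucc) (fun k => h _)).add (h (Fin.last α))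
    refine h1.mono (le_of_eq ?_) (le_of_eq ?_)
    · push_cast
      ring
    · push_cast
      ring

/-- Matrices of displacement rank at most `α` over `ℂ` and over `ℝ`. -/
theorem displacement (hDIA : DIA) (hMUL : MUL) (hSUB : SUB) (hTOE : TOE) (hPRI : PRI)
    (hNUM : NUM) (hREAL : REAL) (hSCA : SCA) (hDSP : DSP) (hDSPR : DSPR) (hNUM2 : NUM2)
    (δ : ℝ) (hδ0 : 0 < δ) (hδ1 : δ ≤ 1) :
    ∃ c : ℝ, 0 < c ∧ ∃ N₀ : ℕ, ∀ N : ℕ, N₀ ≤ N →
      (∀ (α : ℕ) (M : Matrix (Fin N) (Fin N) ℂ), (disp M).rank ≤ α →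
        Spr (α * (N : ℝ) ^ δ) (α * (N : ℝ) ^ (1 - c / Real.log (Real.log N) ^ 3)) M) ∧
      (∀ (α : ℕ) (M : Matrix (Fin N) (Fin N) ℝ), (disp M).rank ≤ α →
        Spr (α * (N : ℝ) ^ δ) (α * (N : ℝ) ^ (1 - c / Real.log (Real.log N) ^ 3)) M) := by
  obtain ⟨c, hc, N₁, h1⟩ := main hDIA hMUL hSUB hTOE hPRI hNUM hREAL hSCA (δ / 2) (by linarith)
    (by linarith)
  obtain ⟨N₂, h2⟩ := hNUM2 c 4 hc
  refine ⟨c / 2, by positivity, max N₁ (max N₂ 1), ?_⟩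
  intro N hN
  have hN1 : 1 ≤ N := (le_max_right _ _).trans ((le_max_right _ _).trans hN)
  have hNR : (0 : ℝ) < N := by exact_mod_cast hN1
  have hT := (h1 N ((le_max_left _ _).trans hN)).1
  have h3 := h2 N ((le_max_left _ _).trans ((le_max_right _ _).trans hN))
  set r : ℝ := (N : ℝ) ^ (1 - c / Real.log (Real.log N) ^ 3) with hr
  have hr0 : 0 ≤ r := by positivity
  have hρ0 : 0 ≤ (N : ℝ) ^ (δ / 2) := by positivity
  have hρ : (N : ℝ) ^ (δ / 2) * (N : ℝ) ^ (δ / 2) = (N : ℝ) ^ δ := by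
    rw [← Real.rpow_add hNR]
    congr 1
    ring
  have key : ∀ (α : ℕ) (M : Matrix (Fin N) (Fin N) ℂ), (disp M).rank ≤ α →
        Spr (α * (N : ℝ) ^ δ) (α * (r + r)) M := by
    intro α M hM
    obtain ⟨f, g, hfg⟩ := hDSP N α M hM
    rw [hfg, ← hρ]
    exact Spr.sum α _ fun k => hMUL _ _ _ _ _ _ _ hρ0 hρ0 (hT (f k)) (hT (g k))
  refine ⟨fun α M hM => (key α M hM).mono le_rfl ?_, fun α M hM => ?_⟩
  · refine mul_le_mul_of_nonneg_left ?_ (Nat.cast_nonneg α)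
    linarith
  · refine (hREAL _ _ _ _ (key α _ ((hDSPR N M).trans hM))).mono le_rfl ?_
    have h4 : (α : ℝ) * (4 * r) ≤ α * (N : ℝ) ^ (1 - c / 2 / Real.log (Real.log N) ^ 3) :=
      mul_le_mul_of_nonneg_left h3 (Nat.cast_nonneg α)
    linarith

theorem ncard_le {K : Type*} [Field K] {m : Type*} [Fintype m] (S : Matrix m m K) (ρ : ℝ)
    (h : ∀ x, (({y | S x y ≠ 0} : Set m).ncard : ℝ) ≤ ρ) :
    (({p : m × m | S p.1 p.2 ≠ 0}.ncard : ℕ) : ℝ) ≤ Fintype.card m * ρ := by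
  classical
  have h1 : {p : m × m | S p.1 p.2 ≠ 0}.ncard = ∑ x, ({y | S x y ≠ 0} : Set m).ncard := by
    rw [Set.ncard_eq_toFinset_card', Set.toFinset_ofPred, Finset.card_filter,
      Fintype.sum_prod_type]
    refine Finset.sum_congr rfl fun x _ => ?_
    rw [Set.ncard_eq_toFinset_card', Set.toFinset_ofPred, Finset.card_filter]
  rw [h1]
  push_cast
  calc ∑ x, ((({y | S x y ≠ 0} : Set m).ncard : ℕ) : ℝ) ≤ ∑ _x : m, ρ :=
        Finset.sum_le_sum fun x _ => h x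
    _ = Fintype.card m * ρ := by rw [Finset.sum_const, Finset.card_univ, nsmul_eq_mul]

/-- Matrices of displacement rank at most `N ^ (c / (log log N) ^ 3)` are not rigid. -/
theorem notRigid (hDIA : DIA) (hMUL : MUL) (hSUB : SUB) (hTOE : TOE) (hPRI : PRI)
    (hNUM : NUM) (hREAL : REAL) (hSCA : SCA) (hDSP : DSP) (hDSPR : DSPR) (hNUM2 : NUM2)
    (hNUM3 : NUM3) (ε δ : ℝ) (hε : 0 < ε) (hδ : 0 < δ) :
    ∃ c : ℝ, 0 < c ∧ ∃ N₀ : ℕ, ∀ N : ℕ, N₀ ≤ N →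
      (∀ M : Matrix (Fin N) (Fin N) ℂ,
        ((disp M).rank : ℝ) ≤ (N : ℝ) ^ (c / Real.log (Real.log N) ^ 3) →
        ∃ R S : Matrix (Fin N) (Fin N) ℂ, M = R + S ∧ (R.rank : ℝ) ≤ ε * N ∧
          ({p : Fin N × Fin N | S p.1 p.2 ≠ 0}.ncard : ℝ) ≤ (N : ℝ) ^ (1 + δ)) ∧
      (∀ M : Matrix (Fin N) (Fin N) ℝ,
        ((disp M).rank : ℝ) ≤ (N : ℝ) ^ (c / Real.log (Real.log N) ^ 3) →
        ∃ R S : Matrix (Fin N) (Fin N) ℝ, M = R + S ∧ (R.rank : ℝ) ≤ ε * N ∧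
          ({p : Fin N × Fin N | S p.1 p.2 ≠ 0}.ncard : ℝ) ≤ (N : ℝ) ^ (1 + δ)) := by
  set δ₁ := min (δ / 2) 1 with hδ₁
  have hδ₁0 : 0 < δ₁ := lt_min (by linarith) one_pos
  obtain ⟨c, hc, N₁, h1⟩ := displacement hDIA hMUL hSUB hTOE hPRI hNUM hREAL hSCA hDSP hDSPR
    hNUM2 δ₁ hδ₁0 (min_le_right _ _)
  obtain ⟨N₂, h2⟩ := hNUM2 (c / 2) (1 / ε) (by linarith)
  obtain ⟨N₃, h3⟩ := hNUM3 (c / 2) (δ / 2) (by linarith) (by linarith)
  refine ⟨c / 2, by positivity, max (max N₁ N₂) (max N₃ 16), ?_⟩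
  intro N hN
  have hN1 : N₁ ≤ N := (le_max_left _ _).trans ((le_max_left _ _).trans hN)
  have hN2 : N₂ ≤ N := (le_max_right _ _).trans ((le_max_left _ _).trans hN)
  have hN3 : N₃ ≤ N := (le_max_left _ _).trans ((le_max_right _ _).trans hN)
  have hN4 : 16 ≤ N := (le_max_right _ _).trans ((le_max_right _ _).trans hN)
  have hNR : (16 : ℝ) ≤ N := by exact_mod_cast hN4
  have hN0 : (0 : ℝ) < N := by linarith
  have hL : 0 ≤ Real.log (Real.log N) := by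
    apply Real.log_nonneg
    rw [Real.le_log_iff_exp_le hN0]
    have := Real.exp_one_lt_d9
    linarith
  have hL3 : 0 ≤ Real.log (Real.log N) ^ 3 := pow_nonneg hL 3
  have e1 := h2 N hN2
  have e2 := h3 N hN3
  set L3 : ℝ := Real.log (Real.log N) ^ 3 with hL3d
  have hR : ∀ α : ℝ, 0 ≤ α → α ≤ (N : ℝ) ^ (c / 2 / L3) →
      α * (N : ℝ) ^ (1 - c / L3) ≤ ε * N := by
    intro α hα0 hα
    have e3 : (N : ℝ) ^ (c / 2 / L3) * (N : ℝ) ^ (1 - c / L3) = (N : ℝ) ^ (1 - c / 2 / L3) := by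
      rw [← Real.rpow_add hN0]
      congr 1
      ring
    have e4 : (N : ℝ) ^ (1 - c / 2 / 2 / L3) ≤ N := by
      have : (N : ℝ) ^ (1 - c / 2 / 2 / L3) ≤ (N : ℝ) ^ (1 : ℝ) := by
        apply Real.rpow_le_rpow_of_exponent_le (by linarith)
        have : 0 ≤ c / 2 / 2 / L3 := by positivity
        linarith
      rwa [Real.rpow_one] at this
    have e5 : α * (N : ℝ) ^ (1 - c / L3) ≤ (N : ℝ) ^ (1 - c / 2 / L3) := by
      rw [← e3]
      exact mul_le_mul_of_nonneg_right hα (by positivity)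
    have e6 : 1 / ε * (N : ℝ) ^ (1 - c / 2 / L3) ≤ N := e1.trans e4
    rw [one_div, inv_mul_le_iff₀ hε] at e6
    exact e5.trans e6
  have hS : ∀ α : ℝ, 0 ≤ α → α ≤ (N : ℝ) ^ (c / 2 / L3) →
      (N : ℝ) * (α * (N : ℝ) ^ δ₁) ≤ (N : ℝ) ^ (1 + δ) := by
    intro α hα0 hα
    have e3 : (N : ℝ) ^ δ₁ ≤ (N : ℝ) ^ (δ / 2) :=
      Real.rpow_le_rpow_of_exponent_le (by linarith) (min_le_left _ _)
    have e4 : (N : ℝ) ^ (1 + δ) = N * ((N : ℝ) ^ (δ / 2) * (N : ℝ) ^ (δ / 2)) := by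
      rw [← Real.rpow_add hN0, Real.rpow_add hN0, Real.rpow_one]
      congr 2
      ring
    rw [e4]
    gcongr
    exact hα.trans e2
  obtain ⟨hC, hRe⟩ := h1 N hN1
  refine ⟨fun M hM => ?_, fun M hM => ?_⟩
  · obtain ⟨S, a, b, -⟩ := hC _ M le_rfl
    refine ⟨M - S, S, by simp, a.trans (hR _ (Nat.cast_nonneg _) hM), ?_⟩
    refine (ncard_le S _ b).trans ?_
    rw [Fintype.card_fin]
    exact hS _ (Nat.cast_nonneg _) hM
  · obtain ⟨S, a, b, -⟩ := hRe _ M le_rfl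
    refine ⟨M - S, S, by simp, a.trans (hR _ (Nat.cast_nonneg _) hM), ?_⟩
    refine (ncard_le S _ b).trans ?_
    rw [Fintype.card_fin]
    exact hS _ (Nat.cast_nonneg _) hM

end Pool.Agent.W989.TN
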